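import Pool.Agent.H14.AVS.S4

/-!
# AVS, module LVF: the local average of the weights
-/

set_option autoImplicit false

namespace Pool.AVS

open Polynomial Matrix Pool.AVR

namespace LVF

theorem AA_map {R S : Type} [CommRing R] [CommRing S] (φ : R →+* S) :
    (AA R).map φ = AA S := by
  refine Matrix.ext fun i j => ?_
  fin_cases i <;> fin_cases j <;> simp [AA]

theorem ia_map {R S : Type} [CommRing R] [CommRing S] (φ : R →+* S)
    (B : Matrix (Fin 3) (Fin 3) R) : ia (B.map φ) = φ (ia B) := by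
  simp only [ia, Matrix.map_apply, map_neg, map_add, map_mul]
  rw [map_ofNat φ 2]

theorem ib_map {R S : Type} [CommRing R] [CommRing S] (φ : R →+* S)
    (B : Matrix (Fin 3) (Fin 3) R) : ib (B.map φ) = φ (ib B) := by
  simp only [ib, Matrix.map_apply, map_sub, map_add, map_mul, map_pow]
  rw [map_ofNat φ 2]

theorem ic_map {R S : Type} [CommRing R] [CommRing S] (φ : R →+* S)
    (B : Matrix (Fin 3) (Fin 3) R) : ic (B.map φ) = φ (ic B) := by
  simp only [ic]
  rw [RingHom.map_det]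
  rfl

/-- reduction -/
noncomputable def red {F : Type} [Field F] (P : F[X]) (N : ℕ) (hN : 1 ≤ N) :
    AdjoinRoot (P ^ N) →+* AdjoinRoot P :=
  AdjoinRoot.lift (AdjoinRoot.of P) (AdjoinRoot.root P) (by
    rw [Polynomial.eval₂_pow, AdjoinRoot.eval₂_root, zero_pow (by omega)])

theorem red_mk {F : Type} [Field F] (P : F[X]) (N : ℕ) (hN : 1 ≤ N) (p : F[X]) :
    red P N hN (AdjoinRoot.mk (P ^ N) p) = AdjoinRoot.mk P p := by
  rw [red, AdjoinRoot.lift_mk]
  have : AdjoinRoot.mk P = Polynomial.eval₂RingHom (AdjoinRoot.of P) (AdjoinRoot.root P) := by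
    refine Polynomial.ringHom_ext (fun a => ?_) ?_
    · simp
    · simp
  rw [this]
  rfl

theorem red_surj {F : Type} [Field F] (P : F[X]) (N : ℕ) (hN : 1 ≤ N) :
    Function.Surjective (red P N hN) := by
  intro y
  obtain ⟨p, rfl⟩ := AdjoinRoot.mk_surjective y
  exact ⟨AdjoinRoot.mk (P ^ N) p, red_mk P N hN p⟩

theorem red_unit {F : Type} [Field F] {P : F[X]} (hP : Irreducible P) (N : ℕ) (hN : 1 ≤ N)
    (x : AdjoinRoot (P ^ N)) : IsUnit x ∨ red P N hN x = 0 := by
  obtain ⟨p, rfl⟩ := AdjoinRoot.mk_surjective x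
  by_cases h : P ∣ p
  · right
    rw [red_mk]
    exact AdjoinRoot.mk_eq_zero.mpr h
  · left
    have h1 : IsCoprime p (P ^ N) := ((hP.coprime_iff_not_dvd.mpr h).symm).pow_right
    obtain ⟨u, v, huv⟩ := h1
    have h2 : AdjoinRoot.mk (P ^ N) u * AdjoinRoot.mk (P ^ N) p = 1 := by
      rw [← map_mul, ← map_one (AdjoinRoot.mk (P ^ N)), AdjoinRoot.mk_eq_mk]
      exact ⟨-v, by linear_combination huv⟩
    exact IsUnit.of_mul_eq_one_right _ h2

theorem card_adj {F : Type} [Field F] [Finite F] {M : F[X]} (hM : M.Monic) :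
    Finite (AdjoinRoot M) ∧ Nat.card (AdjoinRoot M) = Nat.card F ^ M.natDegree := by
  have : Module.Finite F (AdjoinRoot M) := (AdjoinRoot.powerBasis' hM).finite
  refine ⟨Module.finite_of_finite F, ?_⟩
  rw [Module.natCard_eq_pow_finrank (K := F), (AdjoinRoot.powerBasis' hM).finrank,
    AdjoinRoot.powerBasis'_dim]

theorem mk_lft {F : Type} [Field F] {M : F[X]} (x : AdjoinRoot M) :
    AdjoinRoot.mk M (lft x) = x := Function.surjInv_eq _ _

theorem map_lft {F : Type} [Field F] {M : F[X]} (B : Matrix (Fin 3) (Fin 3) (AdjoinRoot M)) :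
    (B.map lft).map (AdjoinRoot.mk M) = B := by
  refine Matrix.ext fun i j => ?_
  simp only [Matrix.map_apply, mk_lft]

/-- the weight of a matrix over the finite ring -/
noncomputable def wR {F : Type} [Field F] (P : F[X]) (N : ℕ) (hN : 1 ≤ N)
    (C : Matrix (Fin 3) (Fin 3) (AdjoinRoot (P ^ N))) : ℝ :=
  ((SmF (C.map (red P N hN))).ncard : ℝ) /
    (((Nat.card (AdjoinRoot P) : ℝ) - 1) *
      ((Nat.card (AdjoinRoot P) : ℝ) *
        nE (AdjoinRoot (P ^ N)) (ia C) (ib C) (ic C) / Nat.card (AdjoinRoot (P ^ N)) + 1))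

theorem wt_eq {F : Type} [Field F] (P : F[X]) (N : ℕ) (hN : 1 ≤ N)
    (B : Matrix (Fin 3) (Fin 3) F[X]) :
    wt P N B = wR P N hN (B.map (AdjoinRoot.mk (P ^ N))) := by
  have h1 : (B.map (AdjoinRoot.mk (P ^ N))).map (red P N hN) = B.map (AdjoinRoot.mk P) := by
    refine Matrix.ext fun i j => ?_
    simp only [Matrix.map_apply, red_mk]
  rw [wt, wR, h1, ia_map, ib_map, ic_map]

theorem bil_AA {k : Type} [CommRing k] (z : Fin 3 → k) :
    bil (AA k) z z = 2 * (z 0 * z 2) + z 1 ^ 2 := by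
  simp [bil, AA, dotProduct, Matrix.mulVec, Fin.sum_univ_three]
  ring

theorem card_iso (k : Type) [Field k] [Finite k] (h2 : (2 : k) ≠ 0) :
    {z : Fin 3 → k | z ≠ 0 ∧ bil (AA k) z z = 0}.ncard ≤ Nat.card k ^ 2 - 1 := by
  classical
  have h1 : ({p : k × k | p ≠ 0}).ncard = Nat.card k ^ 2 - 1 := by
    have h3 : ({p : k × k | p ≠ 0}) = (Set.univ : Set (k × k)) \ {0} := by
      ext p
      simp
    rw [h3, Set.ncard_sdiff_singleton_of_mem (Set.mem_univ _), Set.ncard_univ, Nat.card_prod, sq]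
  rw [← h1]
  refine Set.ncard_le_ncard_of_injOn
    (fun z => if z 0 = 0 then ((0 : k), z 2) else (z 0, z 1)) ?_ ?_ (Set.toFinite _)
  · rintro z ⟨hz, hb⟩
    rw [bil_AA] at hb
    by_cases h0 : z 0 = 0
    · have hz1 : z 1 = 0 := by
        rw [h0] at hb
        have : z 1 ^ 2 = 0 := by linear_combination hb
        exact pow_eq_zero_iff (two_ne_zero) |>.mp this
      have hz2 : z 2 ≠ 0 := by
        intro h
        apply hz
        funext i
        fin_cases i
        · exact h0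
        · exact hz1
        · exact h
      simp [h0, hz2]
    · simp [h0]
  · rintro z ⟨hz, hb⟩ z' ⟨hz', hb'⟩ h
    rw [bil_AA] at hb hb'
    simp only at h
    by_cases h0 : z 0 = 0
    · by_cases h0' : z' 0 = 0
      · have hz1 : z 1 = 0 := by
          rw [h0] at hb
          have : z 1 ^ 2 = 0 := by linear_combination hb
          exact pow_eq_zero_iff (two_ne_zero) |>.mp this
        have hz1' : z' 1 = 0 := by
          rw [h0'] at hb'
          have : z' 1 ^ 2 = 0 := by linear_combination hb'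
          exact pow_eq_zero_iff (two_ne_zero) |>.mp this
        rw [if_pos h0, if_pos h0'] at h
        have h3 : z 2 = z' 2 := congrArg Prod.snd h
        funext i
        fin_cases i
        · exact h0.trans h0'.symm
        · exact hz1.trans hz1'.symm
        · exact h3
      · rw [if_pos h0, if_neg h0'] at h
        exact absurd (congrArg Prod.fst h).symm h0'
    · by_cases h0' : z' 0 = 0
      · rw [if_neg h0, if_pos h0'] at h
        exact absurd (congrArg Prod.fst h) h0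
      · rw [if_neg h0, if_neg h0'] at h
        have h3 : z 0 = z' 0 := congrArg Prod.fst h
        have h4 : z 1 = z' 1 := congrArg Prod.snd h
        have h5 : (2 * z 0) * (z 2 - z' 2) = 0 := by
          rw [← h3, ← h4] at hb'
          linear_combination hb - hb'
        have h6 : z 2 = z' 2 := by
          have := (mul_eq_zero.mp h5).resolve_left (mul_ne_zero h2 h0)
          exact sub_eq_zero.mp this
        funext i
        fin_cases i
        · exact h3
        · exact h4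
        · exact h6

theorem card_SmF (k : Type) [Field k] [Finite k] (h2 : (2 : k) ≠ 0)
    (B : Matrix (Fin 3) (Fin 3) k) : (SmF B).ncard ≤ 2 * (Nat.card k ^ 2 - 1) := by
  classical
  refine le_trans ?_ (Nat.mul_le_mul_left 2 (card_iso k h2))
  have hf : (SmF B).Finite := Set.toFinite _
  have hg : {z : Fin 3 → k | z ≠ 0 ∧ bil (AA k) z z = 0}.Finite := Set.toFinite _
  rw [Set.ncard_eq_toFinset_card _ hf, Set.ncard_eq_toFinset_card _ hg]
  refine le_trans (Finset.card_le_mul_card_image (f := Prod.fst) hf.toFinset 2 ?_)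
    (Nat.mul_le_mul_left 2 (Finset.card_le_card ?_))
  · intro z hz
    obtain ⟨⟨z', w⟩, hzw, rfl⟩ := Finset.mem_image.mp hz
    rw [Set.Finite.mem_toFinset] at hzw
    refine le_trans (Finset.card_le_card (t := {(z', w), (z', -w)}) ?_) Finset.card_le_two
    rintro ⟨z'', w'⟩ h
    obtain ⟨h1, h3⟩ := Finset.mem_filter.mp h
    rw [Set.Finite.mem_toFinset] at h1
    simp only at h3
    subst h3
    have e1 := hzw.2.2.1
    have e2 := h1.2.2.1
    simp only at e1 e2
    have e3 : (w' - w) * (w' + w) = 0 := by linear_combination e2 - e1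
    rcases mul_eq_zero.mp e3 with e4 | e4
    · rw [Finset.mem_insert]
      left
      rw [sub_eq_zero.mp e4]
    · rw [Finset.mem_insert, Finset.mem_singleton]
      right
      rw [eq_neg_of_add_eq_zero_left e4]
  · intro z hz
    obtain ⟨⟨z', w⟩, hzw, rfl⟩ := Finset.mem_image.mp hz
    rw [Set.Finite.mem_toFinset] at hzw ⊢
    exact ⟨hzw.1, hzw.2.1⟩

end LVF

open LVF in
theorem lvf_thm (hMAS : MASStmt) : LVFStmt := by
  intro F _ _ h2 P N hPm hP hN
  have hfac : Fact (Irreducible P) := ⟨hP⟩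
  obtain ⟨hfinP, hcP⟩ := card_adj hPm
  obtain ⟨hfinN, hcN⟩ := card_adj (hPm.pow N)
  rw [hPm.natDegree_pow] at hcN
  set q := Nat.card F with hq
  have hq1 : 1 < q := Finite.one_lt_card
  have hPd : P.natDegree ≠ 0 := hP.natDegree_pos.ne'
  set κ := Nat.card (AdjoinRoot P) with hκ
  have hκ1 : 1 < κ := by rw [hcP]; exact Nat.one_lt_pow hPd hq1
  have hκr : (1 : ℝ) < (κ : ℝ) := by exact_mod_cast hκ1
  set ρ := Nat.card (AdjoinRoot (P ^ N)) with hρ
  have hρ0 : (0 : ℝ) < (ρ : ℝ) := by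
    have : 0 < ρ := by rw [hcN]; positivity
    exact_mod_cast this
  have h2P : (2 : AdjoinRoot P) ≠ 0 := by
    have : (algebraMap F (AdjoinRoot P)) 2 ≠ 0 := by
      rw [Ne, map_eq_zero]
      exact h2
    rwa [map_ofNat] at this
  have h2N : IsUnit (2 : AdjoinRoot (P ^ N)) := by
    have : IsUnit ((algebraMap F (AdjoinRoot (P ^ N))) 2) := (isUnit_iff_ne_zero.mpr h2).map _
    rwa [map_ofNat] at this
  refine ⟨hcN, ?_, ?_, ?_, ?_⟩
  · intro B B' h
    rw [wt_eq P N hN, wt_eq P N hN, h]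
  · intro B
    rw [wt_eq P N hN, wt_eq P N hN, map_lft]
  · intro B
    have hS : ((SmF (B.map (AdjoinRoot.mk P))).ncard : ℝ) ≤ 2 * ((κ : ℝ) ^ 2 - 1) := by
      have h1 := card_SmF (AdjoinRoot P) h2P (B.map (AdjoinRoot.mk P))
      have h3 : 1 ≤ Nat.card (AdjoinRoot P) ^ 2 := Nat.one_le_pow _ _ (by omega)
      have h4 := (Nat.cast_le (α := ℝ)).mpr h1
      push_cast [Nat.cast_sub h3] at h4
      exact h4
    have hd : (0 : ℝ) ≤ (κ : ℝ) * nE (AdjoinRoot (P ^ N)) (AdjoinRoot.mk (P ^ N) (ia B))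
        (AdjoinRoot.mk (P ^ N) (ib B)) (AdjoinRoot.mk (P ^ N) (ic B)) / (ρ : ℝ) := by positivity
    have hden : (κ : ℝ) - 1 ≤ ((κ : ℝ) - 1) * ((κ : ℝ) * nE (AdjoinRoot (P ^ N))
        (AdjoinRoot.mk (P ^ N) (ia B)) (AdjoinRoot.mk (P ^ N) (ib B))
        (AdjoinRoot.mk (P ^ N) (ic B)) / (ρ : ℝ) + 1) := by
      nlinarith
    have hκ' : (κ : ℝ) = (q : ℝ) ^ P.natDegree := by rw [hcP]; push_cast; rfl
    constructor
    · rw [wt]
      exact div_nonneg (by positivity) (by linarith)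
    · rw [wt, div_le_iff₀ (by linarith), ← hκ']
      calc ((SmF (B.map (AdjoinRoot.mk P))).ncard : ℝ) ≤ 2 * ((κ : ℝ) ^ 2 - 1) := hS
        _ = 2 * ((κ : ℝ) + 1) * ((κ : ℝ) - 1) := by ring
        _ ≤ _ := by
          apply mul_le_mul_of_nonneg_left hden
          positivity
  · intro a b c
    have hmas := hMAS (AdjoinRoot (P ^ N)) (AdjoinRoot P) (red P N hN) (red_surj P N hN)
      (red_unit hP N hN) h2N a b c
    set D : ℝ := ((κ : ℝ) - 1) * ((κ : ℝ) * nE (AdjoinRoot (P ^ N)) a b c / (ρ : ℝ) + 1) with hD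
    have hDpos : 0 < D := by
      have : (0 : ℝ) ≤ (κ : ℝ) * nE (AdjoinRoot (P ^ N)) a b c / (ρ : ℝ) := by positivity
      rw [hD]
      apply mul_pos <;> linarith
    have h1 : ∑ᶠ B ∈ Fb a b c, wt P N (B.map lft) =
        ∑ᶠ B ∈ Fb a b c, D⁻¹ * ((SmF (B.map (red P N hN))).ncard : ℝ) := by
      refine finsum_mem_congr rfl fun B hB => ?_
      rw [wt_eq P N hN, map_lft, wR, hB.2.1, hB.2.2.1, hB.2.2.2, div_eq_inv_mul]
    rw [h1, ← mul_finsum_mem]
    set SS := ∑ᶠ B ∈ Fb a b c, ((SmF (B.map (red P N hN))).ncard : ℝ) with hSS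
    have hκ' : (q : ℝ) ^ P.natDegree = (κ : ℝ) := by rw [hcP]; push_cast; rfl
    have hρ' : (q : ℝ) ^ (N * P.natDegree) = (ρ : ℝ) := by rw [hcN]; push_cast; rfl
    have e1 : (q : ℝ) ^ (2 * P.natDegree) = (κ : ℝ) ^ 2 := by
      rw [← hκ', ← pow_mul, mul_comm]
    have e2 : (q : ℝ) ^ (3 * (N * P.natDegree)) = (ρ : ℝ) ^ 3 := by
      rw [← hρ', ← pow_mul, mul_comm]
    rw [e1, e2]
    have hκ0 : (κ : ℝ) ≠ 0 := by positivity
    have hDr : D * (ρ : ℝ) = ((κ : ℝ) - 1) * ((κ : ℝ) * nE (AdjoinRoot (P ^ N)) a b c + ρ) := by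
      rw [hD]
      field_simp
    rw [inv_mul_eq_iff_eq_mul₀ hDpos.ne']
    have h5 : (κ : ℝ) ^ 2 * SS = ((κ : ℝ) ^ 2 - 1) * (ρ : ℝ) ^ 3 * D := by
      calc (κ : ℝ) ^ 2 * SS = ((κ : ℝ) - 1) * ((κ : ℝ) ^ 2 - 1) * (ρ : ℝ) ^ 2 *
          ((κ : ℝ) * nE (AdjoinRoot (P ^ N)) a b c + ρ) := hmas
        _ = ((κ : ℝ) ^ 2 - 1) * (ρ : ℝ) ^ 2 * (D * (ρ : ℝ)) := by rw [hDr]; ring
        _ = _ := by ring
    have h6 : (κ : ℝ) ^ 2 * SS = (κ : ℝ) ^ 2 * (D * ((1 - 1 / (κ : ℝ) ^ 2) * (ρ : ℝ) ^ 3)) := by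
      rw [h5]
      field_simp
    exact mul_left_cancel₀ (pow_ne_zero 2 hκ0) h6

end Pool.AVS
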