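import Pool.Agent.H14.AVS.S6

/-!
# AVS: module SHC (from all equations to short equations)
-/

set_option autoImplicit false

namespace Pool.AVS.SHC

open Polynomial Pool.AVR Pool.AVS

section

variable {F : Type} [Field F]

lemma deg_eq (m : ℕ) :
    {p : F[X] | p.natDegree ≤ m} = (degreeLT F (m + 1) : Set F[X]) := by
  ext p
  simp only [Set.mem_ofPred_eq, SetLike.mem_coe, mem_degreeLT]
  constructor
  · intro hp
    exact lt_of_le_of_lt degree_le_natDegree (by exact_mod_cast Nat.lt_succ_of_le hp)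
  · intro hp
    by_cases h0 : p = 0
    · simp [h0]
    · rw [degree_eq_natDegree h0] at hp
      exact Nat.lt_succ_iff.mp (by exact_mod_cast hp)

lemma deg_fin [Finite F] (m : ℕ) : {p : F[X] | p.natDegree ≤ m}.Finite := by
  rw [deg_eq]
  have hfin : Finite (degreeLT F (m + 1)) :=
    Finite.of_equiv _ (degreeLTEquiv F (m + 1)).symm.toEquiv
  exact Set.toFinite _

lemma deg_card [Finite F] (m : ℕ) :
    {p : F[X] | p.natDegree ≤ m}.ncard = Nat.card F ^ (m + 1) := by
  rw [deg_eq]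
  have h : Nat.card (degreeLT F (m + 1)) = Nat.card F ^ (m + 1) := by
    rw [Nat.card_congr (degreeLTEquiv F (m + 1)).toEquiv, Nat.card_fun]
    simp
  exact h

lemma fam_fin [Finite F] (n : ℕ) : (Fam F n).Finite := by
  refine ((deg_fin (F := F) (2 * n)).prod ((deg_fin (F := F) (4 * n)).prod
    (deg_fin (F := F) (6 * n)))).subset ?_
  rintro ⟨a, b, c⟩ ⟨h1, h2, h3⟩
  exact ⟨h1, h2, h3⟩

/-- The translate by `-s`. -/
noncomputable def up (s : F[X]) (g : F[X] × F[X] × F[X]) : F[X] × F[X] × F[X] :=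
  (g.1 + 3 * s, g.2.1 + 2 * s * g.1 + 3 * s ^ 2, g.2.2 + s * g.2.1 + s ^ 2 * g.1 + s ^ 3)

lemma up_subs (s : F[X]) (g : F[X] × F[X] × F[X]) : Subs 1 (-s) g (up s g) := by
  refine ⟨?_, ?_, ?_⟩ <;> · simp only [up]; ring

lemma up_up (s : F[X]) (g : F[X] × F[X] × F[X]) : up s (up (-s) g) = g := by
  obtain ⟨a, b, c⟩ := g
  simp only [up, Prod.mk.injEq]
  refine ⟨?_, ?_, ?_⟩ <;> ring

lemma up_disc (s : F[X]) (g : F[X] × F[X] × F[X]) :
    disc (up s g).1 (up s g).2.1 (up s g).2.2 = disc g.1 g.2.1 g.2.2 := by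
  simp only [up, disc]
  ring

lemma nd_add {p q : F[X]} {m : ℕ} (hp : p.natDegree ≤ m) (hq : q.natDegree ≤ m) :
    (p + q).natDegree ≤ m := (natDegree_add_le p q).trans (max_le hp hq)

lemma nd_mul {p q : F[X]} {m k l : ℕ} (hp : p.natDegree ≤ m) (hq : q.natDegree ≤ k)
    (h : m + k ≤ l) : (p * q).natDegree ≤ l :=
  natDegree_mul_le.trans ((Nat.add_le_add hp hq).trans h)

lemma nd_num (k m : ℕ) [k.AtLeastTwo] : ((OfNat.ofNat k : F[X])).natDegree ≤ m := by
  have h : (OfNat.ofNat k : F[X]) = C (OfNat.ofNat k : F) := by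
    rw [map_ofNat]
  rw [h, natDegree_C]
  exact Nat.zero_le _

lemma nd_pow {p : F[X]} {m k : ℕ} (hp : p.natDegree ≤ m) (e : ℕ) (h : e * m ≤ k) :
    (p ^ e).natDegree ≤ k :=
  natDegree_pow_le.trans ((Nat.mul_le_mul_left e hp).trans h)

lemma up_fam (n : ℕ) (s : F[X]) (hs : s.natDegree ≤ 2 * n) (g : F[X] × F[X] × F[X])
    (hg : g ∈ Fam F n) : up s g ∈ Fam F n := by
  obtain ⟨h1, h2, h3⟩ := hg
  refine ⟨?_, ?_, ?_⟩
  · exact nd_add h1 (nd_mul (nd_num 3 0) hs (by omega))
  · refine nd_add (nd_add h2 ?_) ?_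
    · exact nd_mul (nd_mul (nd_num 2 0) hs le_rfl) h1 (by omega)
    · exact nd_mul (nd_num 3 0) (nd_pow hs 2 le_rfl) (by omega)
  · refine nd_add (nd_add (nd_add h3 ?_) ?_) ?_
    · exact nd_mul hs h2 (by omega)
    · exact nd_mul (nd_pow hs 2 le_rfl) h1 (by omega)
    · exact nd_pow hs 3 (by omega)

lemma up_ell (n : ℕ) (s : F[X]) (hs : s.natDegree ≤ 2 * n) (g : F[X] × F[X] × F[X])
    (hg : g ∈ Ell F n) : up s g ∈ Ell F n := by
  refine ⟨up_fam n s hs g hg.1, ?_⟩
  rw [up_disc]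
  exact hg.2

end

end Pool.AVS.SHC

namespace Pool.AVS

open Polynomial Pool.AVR SHC

theorem shc_thm : SHCStmt := by
  classical
  intro F _ _ h2 h3 G hG n
  have hE : (Ell F n).Finite := (fam_fin n).subset fun f hf => hf.1
  have hS : (Sht F n).Finite := hE.subset fun f hf => hf.1
  refine ⟨hS, ?_⟩
  set A : Set F[X] := {p : F[X] | p.natDegree ≤ 2 * n} with hA
  have hAf : A.Finite := deg_fin (2 * n)
  have hAc : A.ncard = Nat.card F ^ (2 * n + 1) := deg_card (2 * n)
  -- a third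
  set t : F[X] := C (3 : F)⁻¹ with ht
  have h3t : (3 : F[X]) * t = 1 := by
    have h : (3 : F[X]) = C (3 : F) := by rw [map_ofNat]
    rw [ht, h, ← C_mul, mul_inv_cancel₀ h3, C_1]
  have htn : ∀ p ∈ A, t * p ∈ A := by
    intro p hp
    exact nd_mul (m := 0) (by rw [ht, natDegree_C]) hp (by omega)
  have key : ∑ᶠ f ∈ Ell F n, G f = ∑ p ∈ hAf.toFinset ×ˢ hS.toFinset, G p.2 := by
    rw [finsum_mem_eq_finite_toFinset_sum _ hE]
    symm
    refine Finset.sum_bij' (fun p _ => up p.1 p.2) (fun f _ => (t * f.1, up (-(t * f.1)) f))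
      ?_ ?_ ?_ ?_ ?_
    · rintro ⟨s, g⟩ hp
      rw [Finset.mem_product, Set.Finite.mem_toFinset, Set.Finite.mem_toFinset] at hp
      rw [Set.Finite.mem_toFinset]
      exact up_ell n s hp.1 g hp.2.1
    · intro f hf
      rw [Set.Finite.mem_toFinset] at hf
      rw [Finset.mem_product, Set.Finite.mem_toFinset, Set.Finite.mem_toFinset]
      have h1 : t * f.1 ∈ A := htn _ hf.1.1
      refine ⟨h1, ?_, ?_⟩
      · refine up_ell n _ ?_ f hf
        rw [natDegree_neg]
        exact h1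
      · simp only [up]
        linear_combination -f.1 * h3t
    · rintro ⟨s, g⟩ hp
      rw [Finset.mem_product, Set.Finite.mem_toFinset, Set.Finite.mem_toFinset] at hp
      have hg : g.1 = 0 := hp.2.2
      have h1 : t * (up s g).1 = s := by
        simp only [up, hg]
        linear_combination s * h3t
      simp only [h1, Prod.mk.injEq, true_and]
      have := up_up (-s) g
      rwa [neg_neg] at this
    · intro f hf
      exact up_up _ f
    · rintro ⟨s, g⟩ hp
      exact hG g (up s g) (-s) (up_subs s g)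
  have hc : ∑ x ∈ hAf.toFinset, ∑ y ∈ hS.toFinset, G (x, y).2 =
      ∑ _x ∈ hAf.toFinset, ∑ y ∈ hS.toFinset, G y := rfl
  rw [key, Finset.sum_product, finsum_mem_eq_finite_toFinset_sum _ hS, hc, Finset.sum_const,
    nsmul_eq_mul, ← Set.ncard_eq_toFinset_card A hAf, hAc]
  push_cast
  rfl

end Pool.AVS
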