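import Pool.Agent.H14.AVS.S4
import Pool.Agent.H33.AVR.RED

/-!
# AVS, module TRV: few matrices have a trivial class
-/

set_option autoImplicit false

namespace Pool.AVS

open Polynomial Matrix Pool.AVR

namespace TRV

/-- the matrices with a common isotropic vector -/
def Wt (k : Type) [Field k] : Set (Matrix (Fin 3) (Fin 3) k) :=
  {B | Bᵀ = B ∧ ∃ z : Fin 3 → k, z ≠ 0 ∧ bil (AA k) z z = 0 ∧ bil B z z = 0}

theorem Wt_bound {δ : ℝ} (hδ : ∀ (k : Type) [Field k] [Finite k], (2 : k) ≠ 0 →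
    δ * (Nat.card k : ℝ) ^ 6 ≤ ({B : Matrix (Fin 3) (Fin 3) k | Bᵀ = B ∧
      ∀ z : Fin 3 → k, z ≠ 0 → bil (AA k) z z = 0 → bil B z z ≠ 0}.ncard : ℝ))
    (k : Type) [Field k] [Finite k] (h2 : (2 : k) ≠ 0) :
    ((Wt k).ncard : ℝ) ≤ (1 - δ) * (Nat.card k : ℝ) ^ 6 := by
  set Ik : Set (Matrix (Fin 3) (Fin 3) k) := {B | Bᵀ = B ∧
      ∀ z : Fin 3 → k, z ≠ 0 → bil (AA k) z z = 0 → bil B z z ≠ 0} with hIk
  have hun : {B : Matrix (Fin 3) (Fin 3) k | Bᵀ = B} = Wt k ∪ Ik := by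
    ext B
    constructor
    · intro h
      by_cases h' : ∃ z : Fin 3 → k, z ≠ 0 ∧ bil (AA k) z z = 0 ∧ bil B z z = 0
      · exact Or.inl ⟨h, h'⟩
      · exact Or.inr ⟨h, fun z h1 h3 h4 => h' ⟨z, h1, h3, h4⟩⟩
    · rintro (h | h)
      · exact h.1
      · exact h.1
  have hdis : Disjoint (Wt k) Ik := by
    rw [Set.disjoint_left]
    rintro B ⟨_, z, h1, h3, h4⟩ ⟨_, h'⟩
    exact h' z h1 h3 h4
  have hsum : (Wt k).ncard + Ik.ncard = Nat.card k ^ 6 := by
    rw [← Set.ncard_union_eq hdis (Set.toFinite _) (Set.toFinite _), ← hun, REDaux.ncard_sym]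
  have hsum' : ((Wt k).ncard : ℝ) + (Ik.ncard : ℝ) = (Nat.card k : ℝ) ^ 6 := by
    exact_mod_cast hsum
  have := hδ k h2
  linarith

theorem bil_map {R S : Type} [CommRing R] [CommRing S] (φ : R →+* S)
    (B : Matrix (Fin 3) (Fin 3) R) (u v : Fin 3 → R) :
    bil (B.map φ) (fun i => φ (u i)) (fun i => φ (v i)) = φ (bil B u v) := by
  simp [bil, dotProduct, Matrix.mulVec, map_sum]

theorem AA_map {R S : Type} [CommRing R] [CommRing S] (φ : R →+* S) :
    (AA R).map φ = AA S := by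
  refine Matrix.ext fun i j => ?_
  fin_cases i <;> fin_cases j <;> simp [AA]

theorem bil_mul {R : Type} [CommRing R] (B : Matrix (Fin 3) (Fin 3) R) (r : R) (u : Fin 3 → R) :
    bil B (fun i => r * u i) (fun i => r * u i) = r ^ 2 * bil B u u := by
  simp only [bil, dotProduct, Matrix.mulVec, Finset.mul_sum]
  refine Finset.sum_congr rfl fun i _ => Finset.sum_congr rfl fun j _ => ?_
  ring

theorem prim {F : Type} [Field F] {P : F[X]} (hP : Irreducible P)
    (B : Matrix (Fin 3) (Fin 3) F[X]) (h : Triv B) :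
    ∃ z : Fin 3 → F[X], (∃ i, ¬ P ∣ z i) ∧ bil (AA F[X]) z z = 0 ∧ bil B z z = 0 := by
  obtain ⟨z, hz, h1, h3⟩ := h
  obtain ⟨i₀, hi₀⟩ : ∃ i, z i ≠ 0 := by
    by_contra hc
    push Not at hc
    exact hz (funext hc)
  induction hd : (z i₀).natDegree using Nat.strong_induction_on generalizing z with
  | _ d ih =>
    by_cases hc : ∃ i, ¬ P ∣ z i
    · exact ⟨z, hc, h1, h3⟩
    · push Not at hc
      choose w hw using hc
      have hzw : z = fun i => P * w i := funext hw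
      have hP0 : P ^ 2 ≠ 0 := pow_ne_zero 2 hP.ne_zero
      rw [hzw, bil_mul] at h1 h3
      have hw0 : w i₀ ≠ 0 := by
        intro h0
        apply hi₀
        rw [hw i₀, h0, mul_zero]
      have hdeg : (z i₀).natDegree = P.natDegree + (w i₀).natDegree := by
        rw [hw i₀, natDegree_mul hP.ne_zero hw0]
      have hPd : 0 < P.natDegree := hP.natDegree_pos
      exact ih (w i₀).natDegree (by omega) w (fun h0 => hw0 (by rw [h0]; rfl))
        ((mul_eq_zero.mp h1).resolve_left hP0) ((mul_eq_zero.mp h3).resolve_left hP0) hw0 rfl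

end TRV

open TRV Pool.AVR.REDaux in
theorem trv_thm (hTRL : TRLStmt) (hE : EQBStmt) : TRVStmt := by
  classical
  obtain ⟨δ, hδ0, hδ⟩ := hTRL
  intro F _ _ h2 ε hε
  set q := Nat.card F with hq
  have hq0 : 0 < q := Nat.card_pos
  have hqr : (0 : ℝ) < (q : ℝ) := by exact_mod_cast hq0
  have hδ1 : 0 ≤ 1 - δ := by
    have h1 := Wt_bound hδ F h2
    have h3 : (0 : ℝ) ≤ (1 - δ) * (Nat.card F : ℝ) ^ 6 := le_trans (by positivity) h1
    rw [← hq] at h3
    exact nonneg_of_mul_nonneg_left h3 (by positivity)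
  obtain ⟨k, hk⟩ := exists_pow_lt_of_lt_one hε (show 1 - δ < 1 by linarith)
  obtain ⟨s, hs, hirr⟩ := many_irr F k
  set M := ∏ p ∈ s, p with hM
  have hMm : M.Monic := monic_prod_of_monic s (fun p => p) fun p hp => (hirr p hp).1
  have hMd : M.natDegree = ∑ p ∈ s, p.natDegree := by
    rw [hM]
    exact natDegree_prod_of_monic s (fun p => p) fun p hp => (hirr p hp).1
  refine ⟨M.natDegree + 2, fun n m hnm => ?_⟩
  -- the set modulo `M`
  set W : Set (Matrix (Fin 3) (Fin 3) (AdjoinRoot M)) :=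
    {w | ∃ B : Matrix (Fin 3) (Fin 3) F[X], Bᵀ = B ∧ B.map (AdjoinRoot.mk M) = w ∧
      ∀ p ∈ s, ∃ z : Fin 3 → AdjoinRoot p, z ≠ 0 ∧ bil (AA (AdjoinRoot p)) z z = 0 ∧
        bil (B.map (AdjoinRoot.mk p)) z z = 0} with hW
  have hWs : ∀ B ∈ W, Bᵀ = B := by
    rintro _ ⟨B, hB, rfl, _⟩
    rw [← Matrix.transpose_map, hB]
  -- bound of the cardinality
  have hfac : ∀ p : {p // p ∈ s}, Fact (Irreducible p.1) := fun p => ⟨(hirr p.1 p.2).2⟩
  have hfin : ∀ p : {p // p ∈ s}, Finite (AdjoinRoot p.1) := fun p => by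
    have : Module.Finite F (AdjoinRoot p.1) :=
      (AdjoinRoot.powerBasis' (hirr p.1 p.2).1).finite
    exact Module.finite_of_finite F
  have hcard : ∀ p : {p // p ∈ s}, Nat.card (AdjoinRoot p.1) = q ^ p.1.natDegree := fun p => by
    have : Module.Finite F (AdjoinRoot p.1) :=
      (AdjoinRoot.powerBasis' (hirr p.1 p.2).1).finite
    rw [Module.natCard_eq_pow_finrank (K := F),
      (AdjoinRoot.powerBasis' (hirr p.1 p.2).1).finrank, AdjoinRoot.powerBasis'_dim]
  have hWp : ∀ p : {p // p ∈ s}, ((Wt (AdjoinRoot p.1)).ncard : ℝ) ≤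
      (1 - δ) * (q : ℝ) ^ (6 * p.1.natDegree) := by
    intro p
    have := hfac p
    have := hfin p
    have h2p : (2 : AdjoinRoot p.1) ≠ 0 := by
      have : (algebraMap F (AdjoinRoot p.1)) 2 ≠ 0 := by
        rw [Ne, map_eq_zero]
        exact h2
      rwa [map_ofNat] at this
    have h3 := Wt_bound hδ (AdjoinRoot p.1) h2p
    rw [hcard p] at h3
    push_cast at h3
    rw [← pow_mul, mul_comm p.1.natDegree 6] at h3
    exact h3
  have hWcard : (W.ncard : ℝ) ≤ (1 - δ) ^ k * (q : ℝ) ^ (6 * M.natDegree) := by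
    have hinj : Nat.card W ≤ Nat.card (∀ p : {p // p ∈ s}, Wt (AdjoinRoot p.1)) := by
      have : ∀ p : {p // p ∈ s}, Finite (Wt (AdjoinRoot p.1)) := fun p => by
        have := hfin p
        exact Subtype.finite
      choose β hβ1 hβ2 hβ3 using fun w : W => w.2
      refine Nat.card_le_card_of_injective
        (fun w p => ⟨(β w).map (AdjoinRoot.mk p.1), ?_, hβ3 w p.1 p.2⟩) ?_
      · rw [← Matrix.transpose_map, hβ1 w]
      · intro w w' hww
        apply Subtype.ext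
        rw [← hβ2 w, ← hβ2 w']
        ext i j
        rw [map_apply, map_apply, AdjoinRoot.mk_eq_mk, hM]
        refine Finset.prod_dvd_of_coprime ?_ ?_
        · intro p hp p' hp' hpp
          refine (hirr p hp).2.coprime_iff_not_dvd.2 fun hd => hpp ?_
          exact eq_of_monic_of_associated (hirr p hp).1 (hirr p' hp').1
            ((hirr p hp).2.associated_of_dvd (hirr p' hp').2 hd)
        · intro p hp
          have h4 := congrFun hww ⟨p, hp⟩
          have h5 := Subtype.ext_iff.1 h4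
          have h6 := congrFun (congrFun h5 i) j
          simp only [map_apply] at h6
          exact AdjoinRoot.mk_eq_mk.1 h6
    rw [Nat.card_pi] at hinj
    have h6 : (W.ncard : ℝ) ≤ ∏ p : {p // p ∈ s}, ((Wt (AdjoinRoot p.1)).ncard : ℝ) := by
      have : W.ncard ≤ ∏ p : {p // p ∈ s}, (Wt (AdjoinRoot p.1)).ncard := hinj
      exact_mod_cast this
    refine h6.trans ?_
    have h7 : ∏ p : {p // p ∈ s}, ((Wt (AdjoinRoot p.1)).ncard : ℝ) ≤
        ∏ p : {p // p ∈ s}, ((1 - δ) * (q : ℝ) ^ (6 * p.1.natDegree)) :=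
      Finset.prod_le_prod (fun p _ => by positivity) fun p _ => hWp p
    refine h7.trans (le_of_eq ?_)
    rw [Finset.prod_mul_distrib, Finset.prod_const, Finset.card_univ, Fintype.card_coe, hs,
      Finset.prod_pow_eq_pow_sum, hMd, Finset.mul_sum]
    congr 2
    exact Finset.sum_coe_sort s (fun p => 6 * p.natDegree)
  -- equidistribution
  have hEQ := hE F n m M hMm.ne_zero (by omega) (by omega) W {B | Bᵀ = B} hWs (fun B hB => hB)
  have hV : ({B : Matrix (Fin 3) (Fin 3) (F × F) | Bᵀ = B}).ncard = q ^ 12 := by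
    rw [ncard_sym, Nat.card_prod, ← hq]
    ring
  rw [hV] at hEQ
  set S := {B : Matrix (Fin 3) (Fin 3) F[X] | Bd n m B ∧ B.map (AdjoinRoot.mk M) ∈ W ∧
        (Matrix.of fun i j => ((B i j).coeff (2 * (n : ℤ) + dd m i + dd m j).toNat,
          (B i j).coeff ((2 * (n : ℤ) + dd m i + dd m j).toNat - 1))) ∈
          {B : Matrix (Fin 3) (Fin 3) (F × F) | Bᵀ = B}} with hS
  have hsub : {B : Matrix (Fin 3) (Fin 3) F[X] | Bd n m B ∧ Triv B} ⊆ S := by
    rintro B ⟨hB, hT⟩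
    refine ⟨hB, ⟨B, hB.1, rfl, fun p hp => ?_⟩, ?_⟩
    · obtain ⟨z, ⟨i, hi⟩, h1, h3⟩ := prim (hirr p hp).2 B hT
      refine ⟨fun i => AdjoinRoot.mk p (z i), ?_, ?_, ?_⟩
      · intro h0
        exact hi (AdjoinRoot.mk_eq_zero.mp (congrFun h0 i))
      · rw [← AA_map (AdjoinRoot.mk p), bil_map, h1, map_zero]
      · rw [bil_map, h3, map_zero]
    · show _ᵀ = _
      refine Matrix.ext fun i j => ?_
      have hsym : B j i = B i j := by
        conv_rhs => rw [← hB.1]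
        rfl
      simp only [transpose_apply, of_apply]
      rw [hsym, add_right_comm]
  have hle : ({B : Matrix (Fin 3) (Fin 3) F[X] | Bd n m B ∧ Triv B}.ncard : ℝ) ≤
      (S.ncard : ℝ) := by
    exact_mod_cast Set.ncard_le_ncard hsub ((bd_finite F n m).subset fun B hB => hB.1)
  refine hle.trans ?_
  have hEQ' : (S.ncard : ℝ) * ((q : ℝ) ^ (6 * M.natDegree) * (q : ℝ) ^ 12) =
      (q : ℝ) ^ (12 * n + 6) * ((W.ncard : ℝ) * (q : ℝ) ^ 12) := by
    exact_mod_cast hEQ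
  have hpos : (0 : ℝ) < (q : ℝ) ^ (6 * M.natDegree) * (q : ℝ) ^ 12 := by positivity
  refine le_of_mul_le_mul_right ?_ hpos
  rw [hEQ']
  have h12 : (W.ncard : ℝ) ≤ ε * (q : ℝ) ^ (6 * M.natDegree) := by
    refine hWcard.trans ?_
    exact mul_le_mul_of_nonneg_right hk.le (by positivity)
  calc (q : ℝ) ^ (12 * n + 6) * ((W.ncard : ℝ) * (q : ℝ) ^ 12) ≤
      (q : ℝ) ^ (12 * n + 6) * ((ε * (q : ℝ) ^ (6 * M.natDegree)) * (q : ℝ) ^ 12) := by gcongr
    _ = ε * (q : ℝ) ^ (12 * n + 6) * ((q : ℝ) ^ (6 * M.natDegree) * (q : ℝ) ^ 12) := by ring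

end Pool.AVS
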